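import Mathlib
import Pool.Agent.Results.MP_f5651a_an.BlowUpLimsup
import Pool.Agent.Results.MP_f5651a_an.NoBlowUpSequence
import Pool.Agent.Y786.FQ.Main

/-!
# Blow-up near zero of discontinuous functionals of degree `m`: complete answer

For a real Banach space `E` and `m ≥ 1`, every discontinuous functional of degree `m` on `E` has a
null sequence along which all its translates tend to infinity in absolute value if and only if
`m = 1` or `E` is finite-dimensional; in these cases the speed can be prescribed. The weaker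
statement with `limsup` always holds.
-/

set_option autoImplicit false

open Filter Topology Polynomial

namespace Pool.Agent.Results.MP_f5651a_an.BlowUpIffFinite

/-- `F` is a functional of degree `m`: on every rational line `t ↦ F (x₀ + t h₀)` it is a
polynomial in `t` of degree at most `m`. -/
def IsFunctionalOfDegree {E : Type*} [AddCommGroup E] [Module ℝ E] (m : ℕ) (F : E → ℝ) : Prop :=
  ∀ x₀ h₀ : E, ∃ a : ℕ → ℝ, ∀ t : ℚ,
    F (x₀ + (t : ℝ) • h₀) = ∑ k ∈ Finset.range (m + 1), a k * (t : ℝ) ^ k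

lemma deg_one_add {E : Type*} [AddCommGroup E] [Module ℝ E] {F : E → ℝ}
    (hF : BlowUpLimsup.IsFunctionalOfDegree 1 F) (x y : E) : F (x + y) = F x + F y - F 0 := by
  have key : ∀ u v : E, F ((1 / 2 : ℝ) • (u + v)) = (F u + F v) / 2 := by
    intro u v
    obtain ⟨a, ha⟩ := hF u (v - u)
    have h0 := ha 0
    have h1 := ha 1
    have h2 := ha (1 / 2)
    simp only [Finset.sum_range_succ, Finset.sum_range_zero] at h0 h1 h2
    push_cast at h0 h1 h2
    rw [zero_smul, add_zero] at h0
    rw [one_smul, add_sub_cancel] at h1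
    have e : u + (1 / 2 : ℝ) • (v - u) = (1 / 2 : ℝ) • (u + v) := by
      have : u = (1 / 2 : ℝ) • u + (1 / 2 : ℝ) • u := by
        rw [← add_smul]; norm_num
      rw [smul_sub, smul_add]
      nth_rewrite 1 [this]
      abel
    rw [e] at h2
    rw [h2, h0, h1]
    ring
  have h1 := key x y
  have h2 := key 0 (x + y)
  rw [zero_add, h1] at h2
  linarith

lemma deg_one {E : Type*} [NormedAddCommGroup E] [NormedSpace ℝ E] {F : E → ℝ}
    (hF : BlowUpLimsup.IsFunctionalOfDegree 1 F) (hd : ¬ Continuous F) (φ : ℕ → ℝ) :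
    ∃ x : ℕ → E, Tendsto x atTop (𝓝 0) ∧ ∀ y : E, ∀ᶠ n in atTop, φ n ≤ |F (x n + y)| := by
  have hunb : ∀ n : ℕ, ∃ h : E, ‖h‖ < 1 / ((n : ℝ) + 1) ∧ |φ n| + n < |F h| := by
    intro n
    by_contra hcon
    push Not at hcon
    apply hd
    rw [continuous_iff_continuousAt]
    intro x
    refine BlowUpLimsup.continuousAt_of_bounded hF x (δ := 1 / ((n : ℝ) + 1))
      (M := |F x| + (|φ n| + n) + |F 0|) (by positivity) fun h hh => ?_
    rw [deg_one_add hF]
    have h1 := hcon h hh
    have h2 : |F x + F h - F 0| ≤ |F x + F h| + |F 0| := abs_sub _ _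
    have h3 := abs_add_le (F x) (F h)
    linarith
  choose h hh1 hh2 using hunb
  refine ⟨h, squeeze_zero_norm (fun n => (hh1 n).le) tendsto_one_div_add_atTop_nhds_zero_nat,
    fun y => ?_⟩
  filter_upwards [eventually_ge_atTop (⌈|F y - F 0|⌉₊)] with n hn
  have h1 : |F y - F 0| ≤ (n : ℝ) := (Nat.le_ceil _).trans (by exact_mod_cast hn)
  have h2 : |F (h n)| ≤ |F (h n + y)| + |F y - F 0| := by
    have e : F (h n) = F (h n + y) - (F y - F 0) := by
      rw [deg_one_add hF]; ring
    calc |F (h n)| = |F (h n + y) - (F y - F 0)| := by rw [← e]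
      _ ≤ _ := abs_sub _ _
  have h3 := hh2 n
  have h4 := le_abs_self (φ n)
  linarith

/-- **Complete answer.** Let `E` be a real Banach space and `m ≥ 1`.
(1) Every discontinuous functional `F` of degree `m` on `E` has a null sequence `(x n)` with
`|F (x n + y)| → ∞` for every `y` if and only if `m = 1` or `E` is finite-dimensional.
(2) If `m = 1` or `E` is finite-dimensional, the speed can be prescribed: for every `φ : ℕ → ℝ`
there is a null sequence with `|F (x n + y)| ≥ φ n` for all large `n`, for every `y`.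
(3) In all cases there is a null sequence with `limsup |F (x n + y)| = +∞` for every `y`. -/
theorem result (E : Type*) [NormedAddCommGroup E] [NormedSpace ℝ E] [CompleteSpace E]
    (m : ℕ) (hm : 1 ≤ m) :
    ((∀ F : E → ℝ, IsFunctionalOfDegree m F → ¬ Continuous F →
        ∃ x : ℕ → E, Tendsto x atTop (𝓝 0) ∧
          ∀ y : E, Tendsto (fun n => |F (x n + y)|) atTop atTop) ↔
      (m = 1 ∨ FiniteDimensional ℝ E)) ∧
    ((m = 1 ∨ FiniteDimensional ℝ E) →
      ∀ F : E → ℝ, IsFunctionalOfDegree m F → ¬ Continuous F → ∀ φ : ℕ → ℝ,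
        ∃ x : ℕ → E, Tendsto x atTop (𝓝 0) ∧ ∀ y : E, ∀ᶠ n in atTop, φ n ≤ |F (x n + y)|) ∧
    (∀ F : E → ℝ, IsFunctionalOfDegree m F → ¬ Continuous F →
      ∃ x : ℕ → E, Tendsto x atTop (𝓝 0) ∧
        ∀ y : E, limsup (fun n => ((|F (x n + y)| : ℝ) : EReal)) atTop = ⊤) := by
  have hspeed : (m = 1 ∨ FiniteDimensional ℝ E) →
      ∀ F : E → ℝ, IsFunctionalOfDegree m F → ¬ Continuous F → ∀ φ : ℕ → ℝ,
        ∃ x : ℕ → E, Tendsto x atTop (𝓝 0) ∧ ∀ y : E, ∀ᶠ n in atTop, φ n ≤ |F (x n + y)| := by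
    rintro (rfl | hfin) F hF hd φ
    · exact deg_one hF hd φ
    · exact Pool.Agent.Y786.FQ.finite_dim (m := m) hF hd φ
  refine ⟨⟨fun h => ?_, fun h F hF hd => ?_⟩, hspeed, fun F hF hd => ?_⟩
  · by_contra hcon
    push Not at hcon
    obtain ⟨hm1, hE⟩ := hcon
    obtain ⟨F, hF, hd, hx⟩ := NoBlowUpSequence.result E hE
    have hF' : BlowUpLimsup.IsFunctionalOfDegree m F :=
      Pool.Agent.Y786.FQ.deg_mono (m := 2) (by omega) hF
    obtain ⟨x, hx0, hxy⟩ := h F hF' hd
    obtain ⟨y, hy⟩ := hx x hx0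
    exact hy (hxy y)
  · obtain ⟨x, hx0, hxy⟩ := hspeed h F hF hd (fun n => (n : ℝ))
    exact ⟨x, hx0, fun y => tendsto_atTop_mono' _ (hxy y) tendsto_natCast_atTop_atTop⟩
  · exact BlowUpLimsup.result E m hm F hF hd

end Pool.Agent.Results.MP_f5651a_an.BlowUpIffFinite
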